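import Pool.Agent.Helper68.Dom.Goals

/-!
# KM331: the complete multipartite graph with parts `3, 3, 1, ..., 1` is minor-minimal
-/

set_option autoImplicit false

namespace NApexGraphs.Dom.Helper64

open SimpleGraph NApexGraphs NApexGraphs.Dom

theorem fin3_four (a b c d : Fin 3) (h1 : a ≠ b) (h2 : a ≠ c) (h3 : a ≠ d) (h4 : b ≠ c)
    (h5 : b ≠ d) (h6 : c ≠ d) : False := by
  simp only [ne_eq, Fin.ext_iff] at h1 h2 h3 h4 h5 h6
  omega

section General

variable {V : Type} {G : SimpleGraph V}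

/-- among the six vertices of `Z` at most two are not alone in their branch set -/
theorem three_bad {B : Fin 5 → Set V} (hd : ∀ k l, k ≠ l → Disjoint (B k) (B l))
    (hne : ∀ k, (B k).Nonempty) (Z : Finset V) (hZ : Z.card ≤ 6) (hB : ∀ k, B k ⊆ (Z : Set V))
    (z : Fin 3 → V) (hz : ∀ i, z i ∈ Z) (hinj : Function.Injective z)
    (hbad : ∀ i k, B k ≠ {z i}) : False := by
  classical
  let T : Finset V := Finset.univ.image z
  have hT : T.card = 3 := by
    rw [Finset.card_image_of_injective _ hinj, Finset.card_univ, Fintype.card_fin]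
  have hTZ : T ⊆ Z := by
    intro a ha
    obtain ⟨i, _, rfl⟩ := Finset.mem_image.1 ha
    exact hz i
  have hC : (Z \ T).card ≤ 3 := by
    have := Finset.card_sdiff_add_card_eq_card hTZ
    omega
  let Y : Finset (Fin 5) := Finset.univ.filter fun k => ∃ a ∈ Z \ T, a ∈ B k
  have hY : Y.card ≤ 3 := (card_meet_le hd (Z \ T) Y fun k hk => (Finset.mem_filter.1 hk).2).trans hC
  have hYc : 2 ≤ (Finset.univ \ Y).card := by
    rw [Finset.card_sdiff_of_subset (Finset.subset_univ _), Finset.card_univ, Fintype.card_fin]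
    omega
  obtain ⟨k, hk, l, hl, hkl⟩ := Finset.one_lt_card.1 hYc
  have hsub : ∀ k ∈ Finset.univ \ Y, ∀ a ∈ B k, ∃ i, a = z i := by
    intro k hk a ha
    by_contra hcon
    push Not at hcon
    apply (Finset.mem_sdiff.1 hk).2
    refine Finset.mem_filter.2 ⟨Finset.mem_univ _, a, Finset.mem_sdiff.2 ⟨hB k ha, ?_⟩, ha⟩
    intro haT
    obtain ⟨i, _, hi⟩ := Finset.mem_image.1 haT
    exact hcon i hi.symm
  have two : ∀ k ∈ Finset.univ \ Y, ∃ i j : Fin 3, i ≠ j ∧ z i ∈ B k ∧ z j ∈ B k := by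
    intro k hk
    obtain ⟨a, ha⟩ := hne k
    obtain ⟨i, rfl⟩ := hsub k hk a ha
    by_contra hcon
    push Not at hcon
    apply hbad i k
    refine Set.eq_singleton_iff_unique_mem.2 ⟨ha, fun b hb => ?_⟩
    obtain ⟨j, rfl⟩ := hsub k hk b hb
    by_cases hij : i = j
    · rw [hij]
    · exact absurd hb (hcon i j hij ha)
  obtain ⟨i, j, hij, hi, hj⟩ := two k hk
  obtain ⟨i', j', hij', hi', hj'⟩ := two l hl
  have key : ∀ a b : Fin 3, z a ∈ B k → z b ∈ B l → a ≠ b := by
    rintro a b ha hb rfl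
    exact Set.disjoint_left.1 (hd k l hkl) ha hb
  have e1 := key i i' hi hi'
  have e2 := key i j' hi hj'
  have e3 := key j i' hj hi'
  have e4 := key j j' hj hj'
  exact fin3_four i j i' j' hij e1 e2 e3 e4 hij'

/-- two vertices which are not adjacent are not both alone in a model of `K5` -/
theorem pair_bad {B : Fin 5 → Set V} (hB : IsModel K5 G B) {z w : V} (hzw : z ≠ w)
    (h : ¬ G.Adj z w) : (∀ k, B k ≠ {z}) ∨ (∀ k, B k ≠ {w}) := by
  by_contra hcon
  push Not at hcon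
  obtain ⟨⟨k, hk⟩, ⟨l, hl⟩⟩ := hcon
  have hkl : k ≠ l := by
    rintro rfl
    rw [hk] at hl
    exact hzw (Set.singleton_injective hl)
  obtain ⟨a, ha, b, hb, hab⟩ := hB.2.2 k l hkl
  rw [hk, Set.mem_singleton_iff] at ha
  rw [hl, Set.mem_singleton_iff] at hb
  rw [ha, hb] at hab
  exact h hab

/-- four different elements on one side of `K33` -/
theorem four_side (a b c d : Fin 3 ⊕ Fin 3) (hab : a ≠ b) (hac : a ≠ c) (had : a ≠ d) (hbc : b ≠ c)
    (hbd : b ≠ d) (hcd : c ≠ d) (h1 : a.isLeft = b.isLeft) (h2 : a.isLeft = c.isLeft)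
    (h3 : a.isLeft = d.isLeft) : False := by
  rcases a with a | a <;> rcases b with b | b <;> rcases c with c | c <;> rcases d with d | d <;>
    simp at h1 h2 h3 <;>
    exact fin3_four a b c d (fun h => hab (by rw [h])) (fun h => hac (by rw [h]))
      (fun h => had (by rw [h])) (fun h => hbc (by rw [h])) (fun h => hbd (by rw [h]))
      (fun h => hcd (by rw [h]))

/-- six vertices with the three disjoint pairs `x y`, `p q`, `r s`, the last two not adjacent:
the deletion and the contraction of `xy` kill both Kuratowski graphs. -/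
theorem kills {x y p q r s : V} {X : Finset V} (Z : Finset V) (hX : ∀ v, v ∉ X → v ∈ Z)
    (hZ : Z.card ≤ 6) (hx : x ∈ Z) (hy : y ∈ Z) (hp : p ∈ Z) (hq : q ∈ Z) (hr : r ∈ Z) (hs : s ∈ Z)
    (hxy : x ≠ y) (hpq : p ≠ q) (hrs : r ≠ s)
    (hxp : x ≠ p) (hxq : x ≠ q) (hxr : x ≠ r) (hxs : x ≠ s)
    (hyp : y ≠ p) (hyq : y ≠ q) (hyr : y ≠ r) (hys : y ≠ s)
    (hpr : p ≠ r) (hps : p ≠ s) (hqr : q ≠ r) (hqs : q ≠ s)
    (npq : ¬ G.Adj p q) (nrs : ¬ G.Adj r s) :
    EdgeKills K5 G x y (X : Set V) ∧ EdgeKills K33 G x y (X : Set V) := by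
  classical
  have hsub : ∀ S : Set V, S ⊆ (X : Set V)ᶜ → S ⊆ (Z : Set V) := fun S hS v hv => hX v (hS hv)
  have nxy : ¬ (G.deleteEdges {s(x, y)}).Adj x y := by
    rw [SimpleGraph.deleteEdges_adj]
    exact fun h => h.2 rfl
  have npq' : ¬ (G.deleteEdges {s(x, y)}).Adj p q := fun h =>
    npq (SimpleGraph.deleteEdges_le _ h)
  have nrs' : ¬ (G.deleteEdges {s(x, y)}).Adj r s := fun h =>
    nrs (SimpleGraph.deleteEdges_le _ h)
  -- the final contradiction for `K5`
  have fin5 : ∀ B : Fin 5 → Set V, (∀ k l, k ≠ l → Disjoint (B k) (B l)) →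
      (∀ k, (B k).Nonempty) → (∀ k, B k ⊆ (Z : Set V)) → ∀ a b c : V, a ∈ Z → b ∈ Z → c ∈ Z →
      a ≠ b → a ≠ c → b ≠ c → (∀ k, B k ≠ {a}) → (∀ k, B k ≠ {b}) → (∀ k, B k ≠ {c}) → False := by
    intro B hd hne hB a b c ha hb hc hab hac hbc h1 h2 h3
    refine three_bad hd hne Z hZ hB ![a, b, c] ?_ ?_ ?_
    · intro i; fin_cases i <;> assumption
    · intro i j hij
      fin_cases i <;> fin_cases j <;> simp_all
    · intro i; fin_cases i <;> assumption
  refine ⟨⟨?_, ?_⟩, ⟨?_, ?_⟩⟩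
  · intro B hB hs'
    have hB' := (isModel_iff _ _ _).1 hB
    have hBZ : ∀ k, B k ⊆ (Z : Set V) := fun k => hsub _ (hs' k)
    have f := fin5 B hB'.2.1 (fun k => (hB'.1 k).1) hBZ
    rcases pair_bad hB hxy nxy with h1 | h1 <;> rcases pair_bad hB hpq npq' with h2 | h2 <;>
      rcases pair_bad hB hrs nrs' with h3 | h3
    · exact f x p r hx hp hr hxp hxr hpr h1 h2 h3
    · exact f x p s hx hp hs hxp hxs hps h1 h2 h3
    · exact f x q r hx hq hr hxq hxr hqr h1 h2 h3
    · exact f x q s hx hq hs hxq hxs hqs h1 h2 h3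
    · exact f y p r hy hp hr hyp hyr hpr h1 h2 h3
    · exact f y p s hy hp hs hyp hys hps h1 h2 h3
    · exact f y q r hy hq hr hyq hyr hqr h1 h2 h3
    · exact f y q s hy hq hs hyq hys hqs h1 h2 h3
  · intro B hB hs' k hxk hyk
    have hB' := (isModel_iff _ _ _).1 hB
    have hBZ : ∀ k, B k ⊆ (Z : Set V) := fun k => hsub _ (hs' k)
    have f := fin5 B hB'.2.1 (fun k => (hB'.1 k).1) hBZ
    have h1 : ∀ l, B l ≠ {x} := by
      intro l hl
      by_cases hlk : l = k
      · rw [hlk] at hl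
        rw [hl, Set.mem_singleton_iff] at hyk
        exact hxy hyk.symm
      · exact Set.disjoint_left.1 (hB'.2.1 l k hlk) (hl ▸ Set.mem_singleton x) hxk
    have h2 : ∀ l, B l ≠ {y} := by
      intro l hl
      by_cases hlk : l = k
      · rw [hlk] at hl
        rw [hl, Set.mem_singleton_iff] at hxk
        exact hxy hxk
      · exact Set.disjoint_left.1 (hB'.2.1 l k hlk) (hl ▸ Set.mem_singleton y) hyk
    rcases pair_bad hB hpq npq with h3 | h3
    · exact f x y p hx hy hp hxy hxp hyp h1 h2 h3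
    · exact f x y q hx hy hq hxy hxq hyq h1 h2 h3
  · intro B hB hs'
    have hB' := (isModel_iff _ _ _).1 hB
    have hBZ : ∀ k, B k ⊆ (Z : Set V) := fun k => hsub _ (hs' k)
    have hC : Z.card ≤ Fintype.card (Fin 3 ⊕ Fin 3) := by simpa using hZ
    have hm : ∀ k, ∃ v ∈ Z, v ∈ B k := by
      intro k
      obtain ⟨v, hv⟩ := (hB'.1 k).1
      exact ⟨v, hBZ k hv, hv⟩
    have key : ∀ z w, z ∈ Z → w ∈ Z → ¬ (G.deleteEdges {s(x, y)}).Adj z w →
        ∀ k l, z ∈ B k → w ∈ B l → k.isLeft = l.isLeft := by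
      intro z w hz hw hzw k l hzk hwl
      by_contra hne
      have hadj : K33.Adj k l := by
        rcases k with k | k <;> rcases l with l | l <;> simp_all
      obtain ⟨a, ha, b, hb, hab⟩ := hB'.2.2 k l hadj
      have e1 : a = z := meet_unique hB'.2.1 hC hm (hBZ k ha) hz ha hzk
      have e2 : b = w := meet_unique hB'.2.1 hC hm (hBZ l hb) hw hb hwl
      rw [e1, e2] at hab
      exact hzw hab
    have dif : ∀ z w, z ≠ w → z ∈ Z → w ∈ Z → ∀ k l, z ∈ B k → w ∈ B l → k ≠ l := by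
      rintro z w hzw hz hw k l hzk hwl rfl
      exact hzw (meet_unique hB'.2.1 hC hm hz hw hzk hwl)
    obtain ⟨kx, hkx⟩ := meet_all hB'.2.1 hC hm hx
    obtain ⟨ky, hky⟩ := meet_all hB'.2.1 hC hm hy
    obtain ⟨kp, hkp⟩ := meet_all hB'.2.1 hC hm hp
    obtain ⟨kq, hkq⟩ := meet_all hB'.2.1 hC hm hq
    obtain ⟨kr, hkr⟩ := meet_all hB'.2.1 hC hm hr
    obtain ⟨ks, hks⟩ := meet_all hB'.2.1 hC hm hs
    have e1 := key x y hx hy nxy kx ky hkx hky
    have e2 := key p q hp hq npq' kp kq hkp hkq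
    have e3 := key r s hr hs nrs' kr ks hkr hks
    have dxy := dif x y hxy hx hy kx ky hkx hky
    have dpq := dif p q hpq hp hq kp kq hkp hkq
    have drs := dif r s hrs hr hs kr ks hkr hks
    by_cases c1 : kx.isLeft = kp.isLeft
    · exact four_side kx ky kp kq dxy (dif x p hxp hx hp _ _ hkx hkp)
        (dif x q hxq hx hq _ _ hkx hkq) (dif y p hyp hy hp _ _ hky hkp)
        (dif y q hyq hy hq _ _ hky hkq) dpq e1 c1 (c1.trans e2)
    · by_cases c2 : kx.isLeft = kr.isLeft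
      · exact four_side kx ky kr ks dxy (dif x r hxr hx hr _ _ hkx hkr)
          (dif x s hxs hx hs _ _ hkx hks) (dif y r hyr hy hr _ _ hky hkr)
          (dif y s hys hy hs _ _ hky hks) drs e1 c2 (c2.trans e3)
      · have c3 : kp.isLeft = kr.isLeft := by
          cases h1 : kx.isLeft <;> cases h2 : kp.isLeft <;> cases h3 : kr.isLeft <;> simp_all
        exact four_side kp kq kr ks dpq (dif p r hpr hp hr _ _ hkp hkr)
          (dif p s hps hp hs _ _ hkp hks) (dif q r hqr hq hr _ _ hkq hkr)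
          (dif q s hqs hq hs _ _ hkq hks) drs e2 c3 (c3.trans e3)
  · intro B hB hs' k hxk hyk
    have hB' := (isModel_iff _ _ _).1 hB
    have hBZ : ∀ k, B k ⊆ (Z : Set V) := fun k => hsub _ (hs' k)
    have hC : Z.card ≤ Fintype.card (Fin 3 ⊕ Fin 3) := by simpa using hZ
    have hm : ∀ k, ∃ v ∈ Z, v ∈ B k := by
      intro k
      obtain ⟨v, hv⟩ := (hB'.1 k).1
      exact ⟨v, hBZ k hv, hv⟩
    exact hxy (meet_unique hB'.2.1 hC hm hx hy hxk hyk)

end General

theorem exists_idx {α : Type} (x y : Fin 3 ⊕ α) (h : ¬ (x.isLeft ∧ y.isLeft)) :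
    ∃ i : Fin 3, x ≠ Sum.inl (i + 1) ∧ x ≠ Sum.inl (i + 2) ∧ y ≠ Sum.inl (i + 1) ∧
      y ≠ Sum.inl (i + 2) := by
  have h3 : ∀ i : Fin 3, i ≠ i + 1 ∧ i ≠ i + 2 := by decide
  rcases x with i | x
  · rcases y with j | y
    · simp at h
    · exact ⟨i, fun h => (h3 i).1 (Sum.inl_injective h), fun h => (h3 i).2 (Sum.inl_injective h),
        by simp, by simp⟩
  · rcases y with j | y
    · exact ⟨j, by simp, by simp, fun h => (h3 j).1 (Sum.inl_injective h),
        fun h => (h3 j).2 (Sum.inl_injective h)⟩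
    · exact ⟨0, by simp, by simp, by simp, by simp⟩

theorem not_nApex (n : ℕ) : ¬ NApex n (K331 n) := by
  classical
  rintro ⟨X, hX, hP⟩
  let V := Fin 3 ⊕ Fin 3 ⊕ Fin n
  let R : Finset V := Finset.univ \ X
  let A : Finset V := Finset.univ.image (fun i : Fin 3 => (Sum.inl i : V))
  let B : Finset V := Finset.univ.image (fun i : Fin 3 => (Sum.inr (Sum.inl i) : V))
  have hA : A.card ≤ 3 := by
    have := Finset.card_image_le (s := (Finset.univ : Finset (Fin 3)))
      (f := fun i : Fin 3 => (Sum.inl i : V))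
    simpa [A] using this
  have hB : B.card ≤ 3 := by
    have := Finset.card_image_le (s := (Finset.univ : Finset (Fin 3)))
      (f := fun i : Fin 3 => (Sum.inr (Sum.inl i) : V))
    simpa [B] using this
  have hR : 6 ≤ R.card := by
    have h1 : R.card = Fintype.card V - X.card := by
      rw [Finset.card_sdiff_of_subset (Finset.subset_univ _), Finset.card_univ]
    have h2 : Fintype.card V = n + 6 := by
      simp [V]; ring
    omega
  have hAB : Disjoint A B := by
    rw [Finset.disjoint_left]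
    intro v hv hv'
    obtain ⟨i, _, rfl⟩ := Finset.mem_image.1 hv
    obtain ⟨j, _, hj⟩ := Finset.mem_image.1 hv'
    simp at hj
  have hRB : 3 ≤ (R \ B).card := by
    have := Finset.le_card_sdiff B R
    omega
  obtain ⟨S₁, h1, h2, h3⟩ := Finset.exists_subsuperset_card_eq (s := R ∩ A) (t := R \ B) (n := 3)
    (by
      intro v hv
      rw [Finset.mem_inter] at hv
      exact Finset.mem_sdiff.2 ⟨hv.1, Finset.disjoint_left.1 hAB hv.2⟩)
    ((Finset.card_le_card Finset.inter_subset_right).trans hA) hRB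
  have hRS : 3 ≤ (R \ S₁).card := by
    have := Finset.le_card_sdiff S₁ R
    omega
  obtain ⟨S₂, g1, g2, g3⟩ := Finset.exists_subsuperset_card_eq (s := R ∩ B) (t := R \ S₁) (n := 3)
    (by
      intro v hv
      rw [Finset.mem_inter] at hv
      refine Finset.mem_sdiff.2 ⟨hv.1, fun h => ?_⟩
      exact (Finset.mem_sdiff.1 (h2 h)).2 hv.2)
    ((Finset.card_le_card Finset.inter_subset_right).trans hB) hRS
  let e₁ : Fin 3 ≃ S₁ := (finCongr h3.symm).trans S₁.equivFin.symm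
  let e₂ : Fin 3 ≃ S₂ := (finCongr g3.symm).trans S₂.equivFin.symm
  have hS1R : ∀ v ∈ S₁, v ∈ R := fun v hv => (Finset.mem_sdiff.1 (h2 hv)).1
  have hS2R : ∀ v ∈ S₂, v ∈ R := fun v hv => (Finset.mem_sdiff.1 (g2 hv)).1
  have hd : ∀ v ∈ S₁, ∀ w ∈ S₂, v ≠ w := by
    rintro v hv w hw rfl
    exact (Finset.mem_sdiff.1 (g2 hw)).2 hv
  have hRX : ∀ v ∈ R, v ∈ ((X : Set V)ᶜ) := fun v hv => (Finset.mem_sdiff.1 hv).2
  let f : Fin 3 ⊕ Fin 3 → ((X : Set V)ᶜ : Set V) := Sum.elim
    (fun i => ⟨(e₁ i).1, hRX _ (hS1R _ (e₁ i).2)⟩) (fun i => ⟨(e₂ i).1, hRX _ (hS2R _ (e₂ i).2)⟩)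
  have adj : ∀ v ∈ S₁, ∀ w ∈ S₂, (K331 n).Adj v w := by
    intro v hv w hw
    refine ⟨hd v hv w hw, ?_, ?_⟩
    · rintro ⟨_, hwl⟩
      rcases w with j | w
      · refine (Finset.mem_sdiff.1 (g2 hw)).2 (h1 (Finset.mem_inter.2 ⟨hS2R _ hw, ?_⟩))
        exact Finset.mem_image.2 ⟨j, Finset.mem_univ _, rfl⟩
      · simp at hwl
    · rintro ⟨⟨i, rfl⟩, _⟩
      exact (Finset.mem_sdiff.1 (h2 hv)).2 (Finset.mem_image.2 ⟨i, Finset.mem_univ _, rfl⟩)
  refine hP.2 (isMinor_of_injective f ?_ ?_)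
  · rintro (i | i) (j | j) hij
    · have := congrArg Subtype.val hij
      exact congrArg Sum.inl (e₁.injective (Subtype.ext this))
    · exact absurd (congrArg Subtype.val hij) (hd _ (e₁ i).2 _ (e₂ j).2)
    · exact absurd (congrArg Subtype.val hij).symm (hd _ (e₁ j).2 _ (e₂ i).2)
    · have := congrArg Subtype.val hij
      exact congrArg Sum.inr (e₂.injective (Subtype.ext this))
  · rintro (i | i) (j | j) hij
    · simp at hij
    · exact adj _ (e₁ i).2 _ (e₂ j).2
    · exact (adj _ (e₁ j).2 _ (e₂ i).2).symm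
    · simp at hij

theorem gKM331 : Goals.KM331 := by
  classical
  intro n
  let V := Fin 3 ⊕ Fin 3 ⊕ Fin n
  have h12 : ∀ i : Fin 3, i + 1 ≠ i + 2 := by decide
  refine minMinimal_of_edges (K331 n) n (not_nApex n) ?_ ?_
  · rintro (i | i | i)
    · exact ⟨Sum.inr (Sum.inl 0), by simp, by simp, by simp⟩
    · exact ⟨Sum.inl 0, by simp, by simp, by simp⟩
    · exact ⟨Sum.inl 0, by simp, by simp, by simp⟩
  · intro x y hxy
    obtain ⟨i, i1, i2, i3, i4⟩ := exists_idx x y hxy.2.1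
    obtain ⟨j, j1, j2, j3, j4⟩ : ∃ j : Fin 3, x ≠ Sum.inr (Sum.inl (j + 1)) ∧
        x ≠ Sum.inr (Sum.inl (j + 2)) ∧ y ≠ Sum.inr (Sum.inl (j + 1)) ∧
        y ≠ Sum.inr (Sum.inl (j + 2)) := by
      have h3 : ∀ i : Fin 3, i ≠ i + 1 ∧ i ≠ i + 2 := by decide
      by_cases hx : ∃ a, x = Sum.inr (Sum.inl a)
      · obtain ⟨a, rfl⟩ := hx
        refine ⟨a, fun h => (h3 a).1 (Sum.inl_injective (Sum.inr_injective h)),
          fun h => (h3 a).2 (Sum.inl_injective (Sum.inr_injective h)), ?_, ?_⟩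
        · rintro rfl; exact hxy.2.2 ⟨⟨_, rfl⟩, ⟨_, rfl⟩⟩
        · rintro rfl; exact hxy.2.2 ⟨⟨_, rfl⟩, ⟨_, rfl⟩⟩
      · by_cases hy : ∃ b, y = Sum.inr (Sum.inl b)
        · obtain ⟨b, rfl⟩ := hy
          exact ⟨b, fun h => hx ⟨_, h⟩, fun h => hx ⟨_, h⟩,
            fun h => (h3 b).1 (Sum.inl_injective (Sum.inr_injective h)),
            fun h => (h3 b).2 (Sum.inl_injective (Sum.inr_injective h))⟩
        · exact ⟨0, fun h => hx ⟨_, h⟩, fun h => hx ⟨_, h⟩, fun h => hy ⟨_, h⟩,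
            fun h => hy ⟨_, h⟩⟩
    have hne : x ≠ y := hxy.1
    let p : V := Sum.inl (i + 1)
    let q : V := Sum.inl (i + 2)
    let r : V := Sum.inr (Sum.inl (j + 1))
    let s : V := Sum.inr (Sum.inl (j + 2))
    have hpq : p ≠ q := fun h => h12 i (Sum.inl_injective h)
    have hrs : r ≠ s := fun h => h12 j (Sum.inl_injective (Sum.inr_injective h))
    have hpr : p ≠ r := by simp [p, r]
    have hps : p ≠ s := by simp [p, s]
    have hqr : q ≠ r := by simp [q, r]
    have hqs : q ≠ s := by simp [q, s]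
    let Z : Finset V := {x, y, p, q, r, s}
    have hxp : x ≠ p := i1
    have hxq : x ≠ q := i2
    have hyp : y ≠ p := i3
    have hyq : y ≠ q := i4
    have hxr : x ≠ r := j1
    have hxs : x ≠ s := j2
    have hyr : y ≠ r := j3
    have hys : y ≠ s := j4
    have hZ : Z.card = 6 := by
      show ({x, y, p, q, r, s} : Finset V).card = 6
      rw [Finset.card_insert_of_notMem, Finset.card_insert_of_notMem,
        Finset.card_insert_of_notMem, Finset.card_insert_of_notMem, Finset.card_pair hrs]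
      · simp [hqr, hqs]
      · simp [hpq, hpr, hps]
      · simp [hyp, hyq, hyr, hys]
      · simp [hne, hxp, hxq, hxr, hxs]
    refine ⟨Finset.univ \ Z, ?_, ?_⟩
    · rw [Finset.card_sdiff_of_subset (Finset.subset_univ _), Finset.card_univ, hZ]
      simp only [Fintype.card_sum, Fintype.card_fin]
      omega
    · refine kills Z (fun v hv => ?_) hZ.le (x := x) (y := y) (p := p) (q := q) (r := r) (s := s)
        (by simp [Z]) (by simp [Z]) (by simp [Z]) (by simp [Z]) (by simp [Z]) (by simp [Z])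
        hne hpq hrs hxp hxq hxr hxs hyp hyq hyr hys hpr hps hqr hqs ?_ ?_
      · by_contra h
        exact hv (Finset.mem_sdiff.2 ⟨Finset.mem_univ _, h⟩)
      · intro h
        exact h.2.1 ⟨rfl, rfl⟩
      · intro h
        exact h.2.2 ⟨⟨_, rfl⟩, ⟨_, rfl⟩⟩

end NApexGraphs.Dom.Helper64
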